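import Pool.Agent.H134.Dg.Main
import Pool.Graph.R_seed8.Results.MP_773b78_co.ManyMixed

/-!
# The maximal number of mixed diagonals of a simple polygon

`M(n) = ⌊(n - 3)² / 2⌋` for simple `n`-gons without straight angles, and
`M(n) = (n - 2) (n - 3) / 2` if straight angles are allowed.

The upper bounds are proved in `Pool.Agent.H134.Dg`: the edges of the polygon are completed to a
maximal noncrossing family `F` of primitive segments between vertices; `F` is a triangulation, and
the edges of `F` together with their flips give enough unmixed diagonals. The extremal polygons are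
those of the library module `ManyMixed`.
-/

set_option autoImplicit false

namespace Pool.Agent.Results.MP_773b78_co.MaxMixedDiagonals

/-- The `i`-th edge of the closed polygonal curve with the vertices `v 0, ..., v (n - 1)`. -/
def edge (n : ℕ) (v : ℕ → ℝ × ℝ) (i : ℕ) : Set (ℝ × ℝ) := segment ℝ (v i) (v ((i + 1) % n))

/-- The closed polygonal curve (the boundary of the polygon). -/
def bdry (n : ℕ) (v : ℕ → ℝ × ℝ) : Set (ℝ × ℝ) := {z | ∃ i < n, z ∈ edge n v i}

/-- `v 0, ..., v (n - 1)` are the vertices of a simple `n`-gon (straight angles are allowed): they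
are distinct, consecutive edges have only the common vertex in common, and the other pairs of edges
are disjoint. -/
structure IsSimple (n : ℕ) (v : ℕ → ℝ × ℝ) : Prop where
  inj : ∀ i < n, ∀ j < n, v i = v j → i = j
  adj : ∀ i < n, edge n v i ∩ edge n v ((i + 1) % n) = {v ((i + 1) % n)}
  disj : ∀ i < n, ∀ j < n, i ≠ j → j ≠ (i + 1) % n → i ≠ (j + 1) % n →
    Disjoint (edge n v i) (edge n v j)

/-- There are no straight angles: no three consecutive vertices are collinear. -/
def NoStraight (n : ℕ) (v : ℕ → ℝ × ℝ) : Prop :=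
  ∀ i < n, ¬ Collinear ℝ {v i, v ((i + 1) % n), v ((i + 2) % n)}

/-- The interior of the polygon: the bounded part of the complement of the curve. -/
def inside (n : ℕ) (v : ℕ → ℝ × ℝ) : Set (ℝ × ℝ) :=
  {z | z ∉ bdry n v ∧ Bornology.IsBounded (connectedComponentIn (bdry n v)ᶜ z)}

/-- The exterior of the polygon: the unbounded part of the complement of the curve. -/
def outside (n : ℕ) (v : ℕ → ℝ × ℝ) : Set (ℝ × ℝ) :=
  {z | z ∉ bdry n v ∧ ¬ Bornology.IsBounded (connectedComponentIn (bdry n v)ᶜ z)}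

/-- The diagonals are the pairs `j < k` of non-adjacent vertices. -/
def IsDiagonal (n j k : ℕ) : Prop := j + 1 < k ∧ k < n ∧ ¬ (j = 0 ∧ k = n - 1)

/-- The diagonal `v j v k` is mixed: the open segment lies neither entirely in the interior nor
entirely in the exterior. -/
def Mixed (n : ℕ) (v : ℕ → ℝ × ℝ) (j k : ℕ) : Prop :=
  ¬ openSegment ℝ (v j) (v k) ⊆ inside n v ∧ ¬ openSegment ℝ (v j) (v k) ⊆ outside n v

/-- The number of the mixed diagonals. -/
noncomputable def numMixed (n : ℕ) (v : ℕ → ℝ × ℝ) : ℕ :=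
  Set.ncard {p : ℕ × ℕ | IsDiagonal n p.1 p.2 ∧ Mixed n v p.1 p.2}

/-- a diagonal whose open segment avoids the boundary is not mixed -/
theorem not_mixed {n : ℕ} {v : ℕ → ℝ × ℝ} {j k : ℕ}
    (hd : Disjoint (openSegment ℝ (v j) (v k)) (bdry n v)) : ¬ Mixed n v j k := by
  rintro ⟨h1, h2⟩
  have hsub : openSegment ℝ (v j) (v k) ⊆ (bdry n v)ᶜ := fun z hz hz' =>
    Set.disjoint_left.1 hd hz hz'
  have hpre : IsPreconnected (openSegment ℝ (v j) (v k)) :=
    (convex_openSegment (v j) (v k)).isPreconnected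
  have hcomp : ∀ z ∈ openSegment ℝ (v j) (v k), ∀ z' ∈ openSegment ℝ (v j) (v k),
      connectedComponentIn (bdry n v)ᶜ z = connectedComponentIn (bdry n v)ᶜ z' := by
    intro z hz z' hz'
    apply connectedComponentIn_eq
    exact (hpre.subset_connectedComponentIn hz hsub) hz'
  obtain ⟨z0, hz0⟩ : (openSegment ℝ (v j) (v k)).Nonempty :=
    ⟨_, ⟨1 / 2, 1 / 2, by norm_num, by norm_num, by norm_num, rfl⟩⟩
  by_cases hb : Bornology.IsBounded (connectedComponentIn (bdry n v)ᶜ z0)
  · apply h1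
    intro z hz
    exact ⟨hsub hz, by rw [hcomp z hz z0 hz0]; exact hb⟩
  · apply h2
    intro z hz
    exact ⟨hsub hz, by rw [hcomp z hz z0 hz0]; exact hb⟩

theorem sp {n : ℕ} {v : ℕ → ℝ × ℝ} (hn : 4 ≤ n) (h : IsSimple n v) : H134.Dg.SP n v :=
  ⟨by omega, h.inj, h.adj, h.disj⟩

theorem upper {n : ℕ} {v : ℕ → ℝ × ℝ} (hn : 4 ≤ n) (h : IsSimple n v) :
    numMixed n v ≤ (n - 2) * (n - 3) / 2 ∧ (NoStraight n v → numMixed n v ≤ (n - 3) ^ 2 / 2) := by
  have hfin : {p : ℕ × ℕ | IsDiagonal n p.1 p.2 ∧ Mixed n v p.1 p.2}.Finite := by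
    apply Set.Finite.subset ((Finset.range n ×ˢ Finset.range n).finite_toSet)
    rintro ⟨a, b⟩ ⟨hd, -⟩
    unfold IsDiagonal at hd
    simp only [Finset.coe_product, Set.mem_prod, Finset.mem_coe, Finset.mem_range]
    simp only at hd
    omega
  have hcard : numMixed n v = hfin.toFinset.card := Set.ncard_eq_toFinset_card _ hfin
  have := H134.Dg.upper (sp hn h) hfin.toFinset (by
    intro p hp
    rw [Set.Finite.mem_toFinset] at hp
    exact ⟨hp.1, fun hd => not_mixed hd hp.2⟩)
  rw [hcard]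
  exact this

/-- **The maximal number of mixed diagonals.** For every `n ≥ 4` the maximal number of mixed
diagonals of a simple `n`-gon without straight angles is `⌊(n - 3)² / 2⌋`; if straight angles are
allowed, it is `(n - 2) (n - 3) / 2`. -/
theorem result : ∀ n : ℕ, 4 ≤ n →
    IsGreatest {m : ℕ | ∃ v : ℕ → ℝ × ℝ, IsSimple n v ∧ NoStraight n v ∧ numMixed n v = m}
      ((n - 3) ^ 2 / 2) ∧
    IsGreatest {m : ℕ | ∃ v : ℕ → ℝ × ℝ, IsSimple n v ∧ numMixed n v = m}
      ((n - 2) * (n - 3) / 2) := by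
  intro n hn
  obtain ⟨⟨v, hv1, hv2, hv3⟩, w, hw1, hw3⟩ := ManyMixed.result n hn
  have hv1' : IsSimple n v := ⟨hv1.inj, hv1.adj, hv1.disj⟩
  have hw1' : IsSimple n w := ⟨hw1.inj, hw1.adj, hw1.disj⟩
  refine ⟨⟨⟨v, hv1', hv2, le_antisymm ((upper hn hv1').2 hv2) hv3⟩, ?_⟩,
    ⟨⟨w, hw1', le_antisymm (upper hn hw1').1 hw3⟩, ?_⟩⟩
  · rintro m ⟨u, hu1, hu2, rfl⟩
    exact (upper hn hu1).2 hu2
  · rintro m ⟨u, hu1, rfl⟩
    exact (upper hn hu1).1

end Pool.Agent.Results.MP_773b78_co.MaxMixedDiagonals
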